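import Pool.Agent.Lib_MP_e33218_gt.PartThree

set_option autoImplicit false

namespace Pool.Agent.Lib_MP_e33218_gt

open Set Topology

variable {V Γ K : Type} [LinearOrder K]

/-- points with countable support -/
abbrev VA (h : V → Γ → ℝ) : Type := {v : V // SC h v}

/-- the disjoint union in which closing-off takes place -/
abbrev XX (h : V → Γ → ℝ) (K : Type) : Type := Γ ⊕ (VA h ⊕ K)

/-- coordinates in `S` -/
def Gs {h : V → Γ → ℝ} {K : Type} (S : Set (XX h K)) : Set Γ := {γ | Sum.inl γ ∈ S}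

/-- points of `V` in `S` -/
def Es {h : V → Γ → ℝ} {K : Type} (S : Set (XX h K)) : Set V :=
  {v | ∃ hv : SC h v, Sum.inr (Sum.inl ⟨v, hv⟩) ∈ S}

/-- points of `K` in `S` -/
def Ns {h : V → Γ → ℝ} {K : Type} (S : Set (XX h K)) : Set K := {k | Sum.inr (Sum.inr k) ∈ S}

/-- indices of requirements -/
abbrev Idx (h : V → Γ → ℝ) (K : Type) : Type :=
  {p : VA h × Γ // h p.1.1 p.2 ≠ 0} ⊕ (VA h ⊕ (ℕ × (K × (K × Code Γ))))

/-- inputs of requirements -/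
def rInp (h : V → Γ → ℝ) (K : Type) : Idx h K → Set (XX h K)
  | Sum.inl p => {Sum.inr (Sum.inl p.1.1)}
  | Sum.inr (Sum.inl v) => {Sum.inr (Sum.inl v)}
  | Sum.inr (Sum.inr q) => {Sum.inr (Sum.inr q.2.1), Sum.inr (Sum.inr q.2.2.1)} ∪
      {x | ∃ b ∈ q.2.2.2, ∃ t ∈ b, x = Sum.inl t.1}

/-- witnesses for the requirements on points -/
def QQ (h : V → Γ → ℝ) (f : V → K) (u v : K) (ℓ : Code Γ) : ℕ → Set (XX h K)
  | 0 => {x | ∃ w : VA h, x = Sum.inr (Sum.inl w) ∧ u < f w.1 ∧ f w.1 < v ∧ ¬ inO h ℓ w.1}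
  | 1 => {x | ∃ w : VA h, x = Sum.inr (Sum.inl w) ∧ f w.1 = u ∧ inO h ℓ w.1}
  | 2 => {x | ∃ w : VA h, x = Sum.inr (Sum.inl w) ∧ f w.1 < u ∧ inO h ℓ w.1}
  | 3 => {x | ∃ w : VA h, x = Sum.inr (Sum.inl w) ∧ u < f w.1 ∧ inO h ℓ w.1}
  | 4 => {x | ∃ w : VA h, x = Sum.inr (Sum.inl w) ∧ inO h ℓ w.1}
  | 5 => {x | ∃ t : K, x = Sum.inr (Sum.inr t) ∧
      IsLUB {t | ∀ y, SC h y → u < f y → f y < t → inO h ℓ y} t}
  | 6 => {x | ∃ t : K, x = Sum.inr (Sum.inr t) ∧ u ⋖ t}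
  | 7 => {x | ∃ t : K, x = Sum.inr (Sum.inr t) ∧ t ⋖ u}
  | _ => ∅

/-- all witnesses -/
def rQ (h : V → Γ → ℝ) (f : V → K) : Idx h K → Set (XX h K)
  | Sum.inl p => {Sum.inl p.1.2}
  | Sum.inr (Sum.inl v) => {Sum.inr (Sum.inr (f v.1))}
  | Sum.inr (Sum.inr q) => QQ h f q.2.1 q.2.2.1 q.2.2.2 q.1

theorem countable_over {Γ : Type} {G : Set Γ} (hG : G.Countable) : {ℓ : Code Γ | Over G ℓ}.Countable := by
  have h1 : {t : Γ × ℚ × ℚ | t.1 ∈ G}.Countable := by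
    refine (hG.prod (Set.countable_univ (α := ℚ × ℚ))).mono ?_
    rintro ⟨γ, r⟩ ht
    exact ⟨ht, Set.mem_univ _⟩
  have hlist : ∀ {α : Type} {s : Set α}, s.Countable → {l : List α | ∀ x ∈ l, x ∈ s}.Countable := by
    intro α s hs
    have := hs.to_subtype
    rw [← Set.range_list_map_coe]
    exact Set.countable_range _
  exact hlist (hlist h1)

theorem rInp_fin (h : V → Γ → ℝ) (K : Type) (i : Idx h K) : (rInp h K i).Finite := by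
  rcases i with p | v | q
  · exact Set.finite_singleton _
  · exact Set.finite_singleton _
  · refine Set.Finite.union (Set.toFinite _) ?_
    have : {x : XX h K | ∃ b ∈ q.2.2.2, ∃ t ∈ b, x = Sum.inl t.1} =
        ⋃ b ∈ {b | b ∈ q.2.2.2}, ⋃ t ∈ {t | t ∈ b}, {Sum.inl t.1} := by
      ext x; simp
    rw [this]
    exact (List.finite_toSet _).biUnion fun b _ => (List.finite_toSet _).biUnion fun t _ =>
      Set.finite_singleton _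

theorem rInp_ctb (h : V → Γ → ℝ) (K : Type) (S : Set (XX h K)) (hS : S.Countable) :
    {i | rInp h K i ⊆ S}.Countable := by
  have hG : (Gs S).Countable := hS.preimage Sum.inl_injective
  have hA : {v : VA h | (Sum.inr (Sum.inl v) : XX h K) ∈ S}.Countable :=
    hS.preimage (Sum.inr_injective.comp Sum.inl_injective)
  have hN : (Ns S).Countable := hS.preimage (Sum.inr_injective.comp Sum.inr_injective)
  have h1 : {p : {p : VA h × Γ // h p.1.1 p.2 ≠ 0} |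
      (Sum.inr (Sum.inl p.1.1) : XX h K) ∈ S}.Countable := by
    have h2 : (⋃ v ∈ {v : VA h | (Sum.inr (Sum.inl v) : XX h K) ∈ S},
        (fun γ => (v, γ)) '' {γ | h v.1 γ ≠ 0}).Countable :=
      hA.biUnion fun v _ => Set.Countable.image v.2 _
    refine (h2.preimage Subtype.val_injective).mono ?_
    rintro ⟨⟨v, γ⟩, hp⟩ hv
    exact Set.mem_biUnion (show v ∈ {v : VA h | (Sum.inr (Sum.inl v) : XX h K) ∈ S} from hv)
      ⟨γ, hp, rfl⟩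
  have h3 : {q : ℕ × (K × (K × Code Γ)) | q.2.1 ∈ Ns S ∧ q.2.2.1 ∈ Ns S ∧
      Over (Gs S) q.2.2.2}.Countable := by
    refine ((Set.countable_univ (α := ℕ)).prod (hN.prod (hN.prod (countable_over hG)))).mono ?_
    rintro ⟨n, u, v, ℓ⟩ ⟨hu, hv, hℓ⟩
    exact ⟨Set.mem_univ _, hu, hv, hℓ⟩
  refine ((h1.image Sum.inl).union ((hA.image (Sum.inr ∘ Sum.inl)).union
    (h3.image (Sum.inr ∘ Sum.inr)))).mono ?_
  rintro (p | v | q) hi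
  · left
    exact ⟨p, hi rfl, rfl⟩
  · right; left
    exact ⟨v, hi rfl, rfl⟩
  · right; right
    refine ⟨q, ⟨?_, ?_, ?_⟩, rfl⟩
    · exact hi (Or.inl (Or.inl rfl))
    · exact hi (Or.inl (Or.inr rfl))
    · intro b hb t ht
      exact hi (Or.inr ⟨b, hb, t, ht, rfl⟩)

/-- the requirement system -/
def RS (h : V → Γ → ℝ) (f : V → K) : ReqSys (XX h K) where
  ι := Idx h K
  inp := rInp h K
  fin := rInp_fin h K
  ctb := rInp_ctb h K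
  Q := rQ h f

theorem RS_use {h : V → Γ → ℝ} {f : V → K} {S : Set (XX h K)} (hS : (RS h f).Closed S)
    (n : ℕ) {u v : K} (hu : u ∈ Ns S) (hv : v ∈ Ns S) {ℓ : Code Γ} (hℓ : Over (Gs S) ℓ)
    (hne : (QQ h f u v ℓ n).Nonempty) : (S ∩ QQ h f u v ℓ n).Nonempty := by
  refine hS (Sum.inr (Sum.inr (n, u, v, ℓ))) ?_ hne
  rintro x ((hx | hx) | ⟨b, hb, t, ht, hx⟩)
  · rw [hx]; exact hu
  · rw [Set.mem_singleton_iff.1 hx]; exact hv
  · rw [hx]; exact hℓ b hb t ht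

theorem RS_cl {h : V → Γ → ℝ} {f : V → K} {S : Set (XX h K)} (hS : (RS h f).Closed S)
    (hne : (Ns S).Nonempty) : Cl h f (Gs S) (Es S) (Ns S) where
  sc := fun v hv => hv.1
  supp := by
    rintro v ⟨hv, hvS⟩ γ hγ
    obtain ⟨x, hx, hx'⟩ := hS (Sum.inl ⟨(⟨v, hv⟩, γ), hγ⟩)
      (by intro x hx; rw [Set.mem_singleton_iff.1 hx]; exact hvS) ⟨_, rfl⟩
    have : x = Sum.inl γ := hx'
    rw [this] at hx
    exact hx
  img := by
    rintro v ⟨hv, hvS⟩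
    obtain ⟨x, hx, hx'⟩ := hS (Sum.inr (Sum.inl ⟨v, hv⟩))
      (by intro x hx; rw [Set.mem_singleton_iff.1 hx]; exact hvS) ⟨_, rfl⟩
    have : x = Sum.inr (Sum.inr (f v)) := hx'
    rw [this] at hx
    exact hx
  q1 := by
    rintro u hu v hv ℓ hℓ ⟨x, hx, h1, h2, h3⟩
    obtain ⟨y, hy, w, rfl, h4, h5, h6⟩ := RS_use hS 0 hu hv hℓ ⟨_, ⟨x, hx⟩, rfl, h1, h2, h3⟩
    exact ⟨w.1, ⟨w.2, hy⟩, h4, h5, h6⟩
  qeq := by
    rintro u hu ℓ hℓ ⟨x, hx, h1, h2⟩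
    obtain ⟨y, hy, w, rfl, h4, h5⟩ := RS_use hS 1 hu hu hℓ ⟨_, ⟨x, hx⟩, rfl, h1, h2⟩
    exact ⟨w.1, ⟨w.2, hy⟩, h4, h5⟩
  qlt := by
    rintro u hu ℓ hℓ ⟨x, hx, h1, h2⟩
    obtain ⟨y, hy, w, rfl, h4, h5⟩ := RS_use hS 2 hu hu hℓ ⟨_, ⟨x, hx⟩, rfl, h1, h2⟩
    exact ⟨w.1, ⟨w.2, hy⟩, h4, h5⟩
  qgt := by
    rintro u hu ℓ hℓ ⟨x, hx, h1, h2⟩
    obtain ⟨y, hy, w, rfl, h4, h5⟩ := RS_use hS 3 hu hu hℓ ⟨_, ⟨x, hx⟩, rfl, h1, h2⟩
    exact ⟨w.1, ⟨w.2, hy⟩, h4, h5⟩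
  qT := by
    rintro ℓ hℓ ⟨x, hx, h1⟩
    obtain ⟨u, hu⟩ := hne
    obtain ⟨y, hy, w, rfl, h4⟩ := RS_use hS 4 hu hu hℓ ⟨_, ⟨x, hx⟩, rfl, h1⟩
    exact ⟨w.1, ⟨w.2, hy⟩, h4⟩
  covU := by
    intro u hu w huw
    obtain ⟨y, hy, t, rfl, h4⟩ := RS_use hS 6 hu hu (over_nil) ⟨_, w, rfl, huw⟩
    rw [huw.unique_right h4]
    exact hy
  covL := by
    intro u hu w huw
    obtain ⟨y, hy, t, rfl, h4⟩ := RS_use hS 7 hu hu (over_nil) ⟨_, w, rfl, huw⟩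
    rw [huw.unique_left h4]
    exact hy

theorem RS_lub {h : V → Γ → ℝ} {f : V → K} {S : Set (XX h K)} (hS : (RS h f).Closed S) :
    ∀ c ∈ Ns S, ∀ ℓ, Over (Gs S) ℓ → ∀ t,
      IsLUB {t | ∀ x, SC h x → c < f x → f x < t → inO h ℓ x} t → t ∈ Ns S := by
  intro c hc ℓ hℓ t ht
  obtain ⟨y, hy, t', rfl, h4⟩ := RS_use hS 5 hc hc hℓ ⟨_, t, rfl, ht⟩
  rw [ht.unique h4]
  exact hy

end Pool.Agent.Lib_MP_e33218_gt
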