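import Mathlib

set_option autoImplicit false

namespace Pool.Agent.Lib_MP_e33218_gt

open Set

section CutValdivia

variable {D : Type} [LinearOrder D]

/-- the cut `I` separates `d` from its parent -/
def cross (β : D → Option D) (I : LowerSet D) (d : D) : Prop :=
  match β d with
  | none => d ∈ I
  | some z => ¬ (d ∈ I ↔ z ∈ I)

theorem cross_none {β : D → Option D} {I : LowerSet D} {d : D} (h : β d = none) :
    cross β I d ↔ d ∈ I := by
  simp [cross, h]

theorem cross_some {β : D → Option D} {I : LowerSet D} {d z : D} (h : β d = some z) :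
    cross β I d ↔ ¬ (d ∈ I ↔ z ∈ I) := by
  simp [cross, h]

theorem isClopen_mem [TopologicalSpace (LowerSet D)] [OrderTopology (LowerSet D)] (d : D) :
    IsClopen {I : LowerSet D | d ∈ I} := by
  have h1 : {I : LowerSet D | d ∈ I} = Set.Ici (LowerSet.Iic d) := by
    ext I
    simp only [Set.mem_ofPred_eq, Set.mem_Ici]
    constructor
    · intro h x hx
      exact I.lower hx h
    · intro h
      exact h (show d ∈ LowerSet.Iic d from le_refl d)
  have h2 : {I : LowerSet D | d ∈ I} = Set.Ioi (LowerSet.Iio d) := by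
    ext I
    simp only [Set.mem_ofPred_eq, Set.mem_Ioi]
    constructor
    · intro h
      refine lt_of_le_of_ne (fun x hx => I.lower (le_of_lt hx) h) ?_
      intro he
      have : d ∈ LowerSet.Iio d := by rw [he]; exact h
      exact lt_irrefl d this
    · intro h
      by_contra hd
      have : I ≤ LowerSet.Iio d := by
        intro x hx
        have : ¬ d ≤ x := fun hdx => hd (I.lower hdx hx)
        exact lt_of_not_ge this
      exact absurd h (not_lt_of_ge this)
  constructor
  · rw [h1]; exact isClosed_Ici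
  · rw [h2]; exact isOpen_Ioi

theorem isClopen_cross [TopologicalSpace (LowerSet D)] [OrderTopology (LowerSet D)]
    (β : D → Option D) (d : D) : IsClopen {I : LowerSet D | cross β I d} := by
  rcases hb : β d with _ | z
  · have : {I : LowerSet D | cross β I d} = {I : LowerSet D | d ∈ I} := by
      ext I; simp [cross_none hb]
    rw [this]; exact isClopen_mem d
  · have : {I : LowerSet D | cross β I d} =
        ({I : LowerSet D | d ∈ I} ∩ {I : LowerSet D | z ∈ I}ᶜ) ∪
        ({I : LowerSet D | d ∈ I}ᶜ ∩ {I : LowerSet D | z ∈ I}) := by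
      ext I
      simp only [Set.mem_ofPred_eq, cross_some hb, Set.mem_union, Set.mem_inter_iff,
        Set.mem_compl_iff]
      tauto
    rw [this]
    exact ((isClopen_mem d).inter (isClopen_mem z).compl).union
      ((isClopen_mem d).compl.inter (isClopen_mem z))

open Classical in
/-- the coordinate map -/
noncomputable def coord (β : D → Option D) (I : LowerSet D) (d : D) : ℝ :=
  if cross β I d then 1 else 0

theorem coord_ne_zero {β : D → Option D} {I : LowerSet D} {d : D} :
    coord β I d ≠ 0 ↔ cross β I d := by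
  unfold coord; split_ifs with h <;> simp [h]

theorem continuous_coord [TopologicalSpace (LowerSet D)] [OrderTopology (LowerSet D)]
    (β : D → Option D) : Continuous (coord β) := by
  refine continuous_pi fun d => ?_
  have hcl := isClopen_cross β d
  classical
  have : (fun I => coord β I d) = Set.indicator {I : LowerSet D | cross β I d} (fun _ => (1:ℝ)) := by
    ext I
    simp [coord, Set.indicator]
  rw [this]
  refine continuous_const.indicator ?_
  rw [hcl.frontier_eq]
  intro a ha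
  exact absurd ha (Set.notMem_empty a)

theorem coord_injective {Ω : Type*} [LinearOrder Ω] [WellFoundedLT Ω] (ρ : D → Ω)
    (β : D → Option D) (hβ : ∀ d z, β d = some z → ρ z < ρ d) :
    Function.Injective (coord β) := by
  intro I J hIJ
  by_contra hne
  have hex : ∃ d, ¬ (d ∈ I ↔ d ∈ J) := by
    by_contra hcon
    push Not at hcon
    exact hne (SetLike.ext hcon)
  obtain ⟨d, hd, hmin⟩ := WellFounded.has_min (InvImage.wf ρ (wellFounded_lt (α := Ω)))
    {d | ¬ (d ∈ I ↔ d ∈ J)} hex
  have hc : cross β I d ↔ cross β J d := by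
    rw [← coord_ne_zero, ← coord_ne_zero, hIJ]
  rcases hb : β d with _ | z
  · rw [cross_none hb, cross_none hb] at hc
    exact hd hc
  · rw [cross_some hb, cross_some hb] at hc
    have hz : z ∈ I ↔ z ∈ J := by
      by_contra hz
      exact hmin z hz (hβ d z hb)
    have hd' : ¬ (d ∈ I ↔ d ∈ J) := hd
    tauto

/-- a cut with countable two-sided witnesses crosses only countably many edges -/
theorem countable_cross {Ω : Type*} [LinearOrder Ω] (ρ : D → Ω)
    (hρc : ∀ e : D, {d | ρ d ≤ ρ e}.Countable)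
    (β : D → Option D) (hnone : {d | β d = none}.Countable)
    (hadj : ∀ d z, β d = some z → ∀ e, ρ e < ρ d → ¬ (d < e ∧ e < z) ∧ ¬ (z < e ∧ e < d))
    (J : LowerSet D) (C : Set D) (hC : C.Countable)
    (hJ : ∀ a ∈ J, ∀ b ∉ J, (∃ c ∈ C, a ≤ c ∧ c < b) ∧ (∃ c ∈ C, a < c ∧ c ≤ b)) :
    {d | cross β J d}.Countable := by
  have hsub : {d | cross β J d} ⊆ {d | β d = none} ∪ ⋃ c ∈ C, {d | ρ d ≤ ρ c} := by
    intro d hd
    rcases hb : β d with _ | z
    · left; exact hb
    · right
      have hd' : cross β J d := hd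
      rw [cross_some hb] at hd'
      simp only [Set.mem_iUnion]
      by_cases hdJ : d ∈ J
      · have hz : z ∉ J := fun hz => hd' ⟨fun _ => hz, fun _ => hdJ⟩
        obtain ⟨c, hc, h1, h2⟩ := (hJ d hdJ z hz).1
        refine ⟨c, hc, ?_⟩
        show ρ d ≤ ρ c
        rcases eq_or_lt_of_le h1 with h | h
        · rw [h]
        · by_contra hlt
          exact (hadj d z hb c (lt_of_not_ge hlt)).1 ⟨h, h2⟩
      · have hz : z ∈ J := by
          by_contra hz
          exact hd' ⟨fun h => absurd h hdJ, fun h => absurd h hz⟩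
        obtain ⟨c, hc, h1, h2⟩ := (hJ z hz d hdJ).2
        refine ⟨c, hc, ?_⟩
        show ρ d ≤ ρ c
        rcases eq_or_lt_of_le h2 with h | h
        · rw [h]
        · by_contra hlt
          exact (hadj d z hb c (lt_of_not_ge hlt)).2 ⟨h1, h⟩
  exact (hnone.union (hC.biUnion fun c _ => hρc c)).mono hsub

/-- between two points of `D` there is a good cut -/
theorem exists_good_cut {d₁ d₂ : D} (h : d₁ < d₂) :
    ∃ (J : LowerSet D) (C : Set D), C.Countable ∧ d₁ ∈ J ∧ d₂ ∉ J ∧
      ∀ a ∈ J, ∀ b ∉ J, (∃ c ∈ C, a ≤ c ∧ c < b) ∧ (∃ c ∈ C, a < c ∧ c ≤ b) := by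
  by_cases hmax : ∃ m, d₁ ≤ m ∧ m ⋖ d₂
  · obtain ⟨m, hm, hcov⟩ := hmax
    refine ⟨LowerSet.Iic m, {m, d₂}, (Set.countable_singleton d₂).insert m, hm,
      fun h2 => absurd (show d₂ ≤ m from h2) (not_le_of_gt hcov.lt), ?_⟩
    intro a ha b hb
    have ha' : a ≤ m := ha
    have hb' : m < b := lt_of_not_ge hb
    have hb2 : d₂ ≤ b := by
      by_contra hlt
      exact hcov.2 hb' (lt_of_not_ge hlt)
    exact ⟨⟨m, by simp, ha', hb'⟩, ⟨d₂, by simp, lt_of_le_of_lt ha' hcov.lt, hb2⟩⟩
  · have hstep : ∀ m : {m : D // d₁ ≤ m ∧ m < d₂}, ∃ m' : {m : D // d₁ ≤ m ∧ m < d₂},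
        m.1 < m'.1 := by
      rintro ⟨m, hm1, hm2⟩
      have : ¬ (m ⋖ d₂) := fun hc => hmax ⟨m, hm1, hc⟩
      rw [not_covBy_iff hm2] at this
      obtain ⟨c, hc1, hc2⟩ := this
      exact ⟨⟨c, hm1.trans hc1.le, hc2⟩, hc1⟩
    choose g hg using hstep
    let n : ℕ → {m : D // d₁ ≤ m ∧ m < d₂} := fun i => Nat.rec ⟨d₁, le_refl _, h⟩ (fun _ m => g m) i
    have hn : ∀ i, (n i).1 < (n (i+1)).1 := fun i => hg (n i)
    refine ⟨⟨{e | ∃ i, e ≤ (n i).1}, fun a b hba ⟨i, hi⟩ => ⟨i, hba.trans hi⟩⟩,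
      Set.range (fun i => (n i).1), Set.countable_range _, ⟨0, le_refl _⟩, ?_, ?_⟩
    · rintro ⟨i, hi⟩
      exact absurd hi (not_le_of_gt (n i).2.2)
    · rintro a ⟨i, hi⟩ b hb
      have hb' : (n (i+1)).1 < b := by
        by_contra hlt
        exact hb ⟨i+1, le_of_not_gt hlt⟩
      have h1 : a < (n (i+1)).1 := lt_of_le_of_lt hi (hn i)
      exact ⟨⟨_, ⟨i+1, rfl⟩, h1.le, hb'⟩, ⟨_, ⟨i+1, rfl⟩, h1, hb'.le⟩⟩

/-- `LowerSet D` is a Valdivia compactum if `D` carries a good parent function. -/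
theorem lowerSet_valdivia {Ω : Type*} [LinearOrder Ω] [WellFoundedLT Ω] (ρ : D → Ω)
    (hρc : ∀ e : D, {d | ρ d ≤ ρ e}.Countable)
    (β : D → Option D) (hnone : {d | β d = none}.Countable)
    (hβ : ∀ d z, β d = some z → ρ z < ρ d)
    (hadj : ∀ d z, β d = some z → ∀ e, ρ e < ρ d → ¬ (d < e ∧ e < z) ∧ ¬ (z < e ∧ e < d))
    [TopologicalSpace (LowerSet D)] [OrderTopology (LowerSet D)] :
    ∃ (Γ : Type) (h : LowerSet D → (Γ → ℝ)), Topology.IsEmbedding h ∧
      Dense (h ⁻¹' {x | {γ | x γ ≠ 0}.Countable}) := by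
  refine ⟨D, coord β, ?_, ?_⟩
  · exact ((continuous_coord β).isClosedEmbedding (coord_injective ρ β hβ)).isEmbedding
  · have hmem : ∀ J : LowerSet D, J ∈ (coord β ⁻¹' {x | {γ | x γ ≠ 0}.Countable}) ↔
        {d | cross β J d}.Countable := by
      intro J
      show {γ | coord β J γ ≠ 0}.Countable ↔ _
      simp only [coord_ne_zero]
    intro I
    rw [mem_closure_iff]
    intro U hU hI
    rcases eq_or_ne I ⊥ with hbot | hbot
    · refine ⟨I, hI, ?_⟩
      rw [hmem]
      refine (Set.countable_empty).mono ?_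
      intro d hd
      have hd' : cross β I d := hd
      rw [hbot] at hd'
      rcases hb : β d with _ | z
      · rw [cross_none hb] at hd'; exact absurd hd' (by simp)
      · rw [cross_some hb] at hd'; exact absurd hd' (by simp)
    rcases eq_or_ne I ⊤ with htop | htop
    · refine ⟨I, hI, ?_⟩
      rw [hmem]
      refine hnone.mono ?_
      intro d hd
      have hd' : cross β I d := hd
      rw [htop] at hd'
      rcases hb : β d with _ | z
      · exact hb
      · rw [cross_some hb] at hd'; exact absurd hd' (by simp)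
    obtain ⟨l, u, hlI, hIu⟩ := mem_nhds_iff_exists_Ioo_subset' ⟨⊥, bot_lt_iff_ne_bot.2 hbot⟩
      ⟨⊤, lt_top_iff_ne_top.2 htop⟩ |>.1 (hU.mem_nhds hI)
    obtain ⟨d₁, h11, h12⟩ := Set.not_subset.1 (show ¬ (I : Set D) ⊆ l from fun h =>
      not_le_of_gt hlI.1 h)
    obtain ⟨d₂, h21, h22⟩ := Set.not_subset.1 (show ¬ (u : Set D) ⊆ I from fun h =>
      not_le_of_gt hlI.2 h)
    have hd : d₁ < d₂ := by
      by_contra hlt
      exact h22 (I.lower (le_of_not_gt hlt) h11)
    obtain ⟨J, C, hC, hJ1, hJ2, hJ⟩ := exists_good_cut hd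
    refine ⟨J, hIu ⟨?_, ?_⟩, ?_⟩
    · exact lt_of_not_ge fun h => h12 (h hJ1)
    · exact lt_of_not_ge fun h => hJ2 (h h21)
    · rw [hmem]
      exact countable_cross ρ hρc β hnone hadj J C hC hJ

end CutValdivia

end Pool.Agent.Lib_MP_e33218_gt
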