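import Mathlib

set_option autoImplicit false

namespace Pool.Agent.Lib_MP_e33218_gt

open Set

/-- a system of requirements with finite inputs -/
structure ReqSys (X : Type) where
  /-- index type -/
  ι : Type
  /-- inputs -/
  inp : ι → Set X
  fin : ∀ i, (inp i).Finite
  ctb : ∀ S : Set X, S.Countable → {i | inp i ⊆ S}.Countable
  /-- acceptable outputs -/
  Q : ι → Set X

variable {X : Type}

/-- `S` meets all requirements whose inputs lie in `S` -/
def ReqSys.Closed (R : ReqSys X) (S : Set X) : Prop :=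
  ∀ i, R.inp i ⊆ S → (R.Q i).Nonempty → (S ∩ R.Q i).Nonempty

/-- one closing-off step -/
def ReqSys.step (R : ReqSys X) (S : Set X) : Set X :=
  S ∪ {x | ∃ i, R.inp i ⊆ S ∧ ∃ h : (R.Q i).Nonempty, x = h.some}

theorem ReqSys.step_countable (R : ReqSys X) {S : Set X} (hS : S.Countable) :
    (R.step S).Countable := by
  refine hS.union ?_
  have h1 := R.ctb S hS
  classical
  by_cases hX : Nonempty X
  · obtain ⟨x₀⟩ := hX
    refine (h1.image (fun i => if h : (R.Q i).Nonempty then h.some else x₀)).mono ?_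
    rintro x ⟨i, hi, h, rfl⟩
    exact ⟨i, hi, by simp [h]⟩
  · exact (Set.countable_empty).mono (fun x => (hX ⟨x⟩).elim)

theorem ReqSys.closed_iUnion {R : ReqSys X} {J : Type*} [Nonempty J] {S : J → Set X}
    (hd : Directed (· ⊆ ·) S) (hS : ∀ j, R.Closed (S j)) : R.Closed (⋃ j, S j) := by
  intro i hi hQ
  have hf := R.fin i
  obtain ⟨j, hj⟩ : ∃ j, R.inp i ⊆ S j := by
    have := Directed.exists_mem_subset_of_finset_subset_biUnion hd (s := hf.toFinset)
      (by simpa using hi)
    simpa using this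
  obtain ⟨x, hx1, hx2⟩ := hS j i hj hQ
  exact ⟨x, Set.mem_iUnion.2 ⟨j, hx1⟩, hx2⟩

theorem ReqSys.exists_hull (R : ReqSys X) (S₀ : Set X) (h₀ : S₀.Countable) :
    ∃ S, S₀ ⊆ S ∧ S.Countable ∧ R.Closed S := by
  let F : ℕ → Set X := fun n => Nat.rec S₀ (fun _ S => R.step S) n
  have hF : ∀ n, F (n+1) = R.step (F n) := fun n => rfl
  have hmono : Monotone F := monotone_nat_of_le_succ fun n => by
    rw [hF]; exact Set.subset_union_left
  have hc : ∀ n, (F n).Countable := by
    intro n
    induction n with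
    | zero => exact h₀
    | succ n ih => rw [hF]; exact R.step_countable ih
  refine ⟨⋃ n, F n, Set.subset_iUnion F 0, Set.countable_iUnion hc, ?_⟩
  intro i hi hQ
  have hf := R.fin i
  obtain ⟨j, hj⟩ : ∃ j, R.inp i ⊆ F j := by
    have := Directed.exists_mem_subset_of_finset_subset_biUnion
      (hmono.directed_le) (s := hf.toFinset) (by simpa using hi)
    simpa using this
  refine ⟨hQ.some, Set.mem_iUnion.2 ⟨j+1, ?_⟩, hQ.some_mem⟩
  rw [hF]
  exact Or.inr ⟨i, hj, hQ, rfl⟩

/-- transfinite iteration -/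
noncomputable def chainAux (H : Set X → Set X) (α : Ordinal.{0}) : Set X :=
  H (⋃ β : Set.Iio α, chainAux H β.1)
termination_by α
decreasing_by exact β.2

/-- the first uncountable ordinal, as a linear order -/
abbrev Om : Type 1 := Set.Iio (Ordinal.omega (1 : Ordinal.{0}))

theorem countable_Iio_of_lt {α : Ordinal.{0}} (h : α < Ordinal.omega 1) :
    Countable (Set.Iio α) := by
  rw [← Cardinal.mk_le_aleph0_iff, Cardinal.mk_Iio_ordinal, Cardinal.lift_le_aleph0]
  have h2 : α.card < Cardinal.aleph 1 := by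
    rw [← Cardinal.lt_ord, Cardinal.ord_aleph]
    exact h
  rw [← Cardinal.succ_aleph0] at h2
  exact Order.lt_succ_iff.1 h2

theorem succ_lt_omega1 {α : Ordinal.{0}} (h : α < Ordinal.omega 1) :
    Order.succ α < Ordinal.omega 1 := by
  have h1 : Order.IsSuccLimit (Ordinal.omega (1 : Ordinal.{0})) := by
    rw [← Cardinal.ord_aleph]
    exact Cardinal.isSuccLimit_ord (Cardinal.aleph0_le_aleph 1)
  exact h1.succ_lt h

theorem Om_countable_Iic (a : Om) : {b : Om | b ≤ a}.Countable := by
  have h : Order.succ a.1 < Ordinal.omega 1 := succ_lt_omega1 a.2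
  have := countable_Iio_of_lt h
  have hinj : Function.Injective (fun b : {b : Om | b ≤ a} =>
      (⟨b.1.1, show b.1.1 < Order.succ a.1 from Order.lt_succ_of_le b.2⟩ : Set.Iio (Order.succ a.1))) := by
    intro b c hbc
    have h2 : b.1.1 = c.1.1 := congrArg (fun x : Set.Iio (Order.succ a.1) => x.1) hbc
    exact Subtype.ext (Subtype.ext h2)
  exact hinj.countable

theorem Om_bdd (s : Set Om) (hs : s.Countable) : ∃ b : Om, ∀ a ∈ s, a ≤ b := by
  have := hs.to_subtype
  have h1 : (⨆ a : s, a.1.1) < Ordinal.omega 1 :=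
    Ordinal.iSup_lt_omega_one (fun a => a.1.2)
  refine ⟨⟨_, h1⟩, fun a ha => ?_⟩
  show a.1 ≤ ⨆ a : s, a.1.1
  have hb : BddAbove (Set.range fun a : s => a.1.1) := Ordinal.bddAbove_of_small
  exact le_ciSup hb ⟨a, ha⟩

theorem exists_chain (R : ReqSys X) (S₀ : Set X) (h₀ : S₀.Countable) (Next : Set X → Set X)
    (hN : ∀ S, S.Countable → (Next S).Countable) :
    ∃ C : Om → Set X, Monotone C ∧ (∀ α, (C α).Countable) ∧ (∀ α, R.Closed (C α)) ∧
      (∀ α, S₀ ⊆ C α) ∧ (∀ α, ∃ β, Next (C α) ⊆ C β) := by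
  have hH : ∀ S : Set X, ∃ T : Set X, S.Countable →
      (S₀ ∪ (S ∪ Next S) ⊆ T ∧ T.Countable ∧ R.Closed T) := by
    intro S
    by_cases hS : S.Countable
    · obtain ⟨T, h1, h2, h3⟩ := R.exists_hull (S₀ ∪ (S ∪ Next S)) (h₀.union (hS.union (hN S hS)))
      exact ⟨T, fun _ => ⟨h1, h2, h3⟩⟩
    · exact ⟨∅, fun h => absurd h hS⟩
  choose H hH using hH
  have hctb : ∀ α : Ordinal.{0}, α < Ordinal.omega 1 → (chainAux H α).Countable := by
    intro α
    induction α using WellFoundedLT.induction with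
    | ind α ih =>
      intro hα
      rw [chainAux]
      have := countable_Iio_of_lt hα
      have hc : (⋃ β : Set.Iio α, chainAux H β.1).Countable :=
        Set.countable_iUnion fun β : Set.Iio α => ih β.1 β.2 (lt_trans β.2 hα)
      exact (hH _ hc).2.1
  have hU : ∀ α : Ordinal.{0}, α < Ordinal.omega 1 →
      (⋃ β : Set.Iio α, chainAux H β.1).Countable := by
    intro α hα
    have := countable_Iio_of_lt hα
    exact Set.countable_iUnion fun β : Set.Iio α => hctb β.1 (lt_trans β.2 hα)
  have hmono : Monotone (fun a : Om => chainAux H a.1) := by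
    intro a b hab
    rcases eq_or_lt_of_le hab with h | h
    · rw [h]
    · have h1 : chainAux H a.1 ⊆ ⋃ β : Set.Iio b.1, chainAux H β.1 :=
        Set.subset_iUnion (fun β : Set.Iio b.1 => chainAux H β.1) ⟨a.1, h⟩
      have h2 := (hH _ (hU b.1 b.2)).1
      show chainAux H a.1 ⊆ chainAux H b.1
      rw [chainAux.eq_1 H b.1]
      exact (h1.trans (Set.subset_union_left.trans Set.subset_union_right)).trans h2
  refine ⟨fun a => chainAux H a.1, hmono, fun a => hctb a.1 a.2, fun a => ?_, fun a => ?_,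
    fun a => ?_⟩
  · show R.Closed (chainAux H a.1)
    rw [chainAux]
    exact (hH _ (hU a.1 a.2)).2.2
  · show S₀ ⊆ chainAux H a.1
    rw [chainAux]
    exact Set.subset_union_left.trans (hH _ (hU a.1 a.2)).1
  · have h : Order.succ a.1 < Ordinal.omega 1 := succ_lt_omega1 a.2
    refine ⟨⟨Order.succ a.1, h⟩, ?_⟩
    have he : (⋃ β : Set.Iio (Order.succ a.1), chainAux H β.1) = chainAux H a.1 := by
      apply Set.Subset.antisymm
      · refine Set.iUnion_subset fun β => ?_
        have hβ : β.1 ≤ a.1 := Order.lt_succ_iff.1 β.2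
        exact hmono (show (⟨β.1, lt_of_le_of_lt hβ a.2⟩ : Om) ≤ a from hβ)
      · exact Set.subset_iUnion (fun β : Set.Iio (Order.succ a.1) => chainAux H β.1)
          ⟨a.1, Order.lt_succ a.1⟩
    have h2 := (hH _ (hU _ h)).1
    rw [he] at h2
    show Next (chainAux H a.1) ⊆ chainAux H (Order.succ a.1)
    rw [chainAux.eq_1 H (Order.succ a.1), he]
    exact (Set.subset_union_right.trans Set.subset_union_right).trans h2

end Pool.Agent.Lib_MP_e33218_gt
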