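import Pool.Agent.Lib_MP_e33218_gt.CutValdivia
import Pool.Agent.Lib_MP_e33218_gt.System

set_option autoImplicit false

namespace Pool.Agent.Lib_MP_e33218_gt

open Set Topology

variable {K : Type} [LinearOrder K]

/-- union of the members of index smaller than `j0` -/
def MM (N : Om → Set K) (j0 : Om) : Set K := {m | ∃ j, j < j0 ∧ m ∈ N j}

/-- `z` is the nearest neighbour of `k` in `M` on one side -/
def Nr (M : Set K) (z k : K) : Prop :=
  (z < k ∧ ∀ m ∈ M, m < k → m ≤ z) ∨ (k < z ∧ ∀ m ∈ M, k < m → z ≤ m)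

omit [LinearOrder K] in
theorem exists_rank (N : Om → Set K) :
    ∃ rk : K → Om, (∀ k j, k ∈ N j → rk k ≤ j) ∧ ∀ k, (∃ j, k ∈ N j) → k ∈ N (rk k) := by
  classical
  have h : ∀ k, ∃ r : Om, (∀ j, k ∈ N j → r ≤ j) ∧ ((∃ j, k ∈ N j) → k ∈ N r) := by
    intro k
    by_cases hk : ∃ j, k ∈ N j
    · obtain ⟨r, hr, hmin⟩ := WellFounded.has_min (wellFounded_lt (α := Om)) {j | k ∈ N j} hk
      exact ⟨r, fun j hj => le_of_not_gt (hmin j hj), fun _ => hr⟩
    · exact ⟨⟨0, Ordinal.omega_pos 1⟩, fun j hj => absurd ⟨j, hj⟩ hk, fun h => absurd h hk⟩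
  choose rk h1 h2 using h
  exact ⟨rk, h1, h2⟩

variable [TopologicalSpace K] [OrderTopology K] [CompactSpace K]

theorem exists_line (N : Om → Set K) (hN : Monotone N) (hctb : ∀ j, (N j).Countable)
    (b : K) (hb : ∀ k, b ≤ k)
    (hA : ∀ j0 : Om, (∃ j, j < j0) → ∀ k, k ∉ MM N j0 →
      (∀ n ∈ MM N j0, n < k → ∃ m ∈ MM N j0, n < m ∧ m < k) →
      (∀ n ∈ MM N j0, k < n → ∃ m ∈ MM N j0, k < m ∧ m < n) →
      (∀ u, u < k → ∃ m ∈ MM N j0, u < m ∧ m < k) ∧
      (∀ v, k < v → ∃ m ∈ MM N j0, k < m ∧ m < v))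
    (hB : ∀ k, (∀ j, k ∉ N j) → ∀ u, u < k → ∃ m, (∃ j, m ∈ N j) ∧ u < m ∧ m < k) :
    ∃ (L : Type) (_ : LinearOrder L) (_ : TopologicalSpace L) (_ : OrderTopology L)
      (_ : CompactSpace L),
      (∃ (Γ : Type) (h : L → (Γ → ℝ)), Topology.IsEmbedding h ∧
        Dense (h ⁻¹' {x | {γ | x γ ≠ 0}.Countable})) ∧
      ∃ g : L → K, Continuous g ∧ Function.Surjective g ∧ Monotone g := by
  obtain ⟨rk, hrk1, hrk2⟩ := exists_rank N
  have hMM : ∀ {m : K} {j0 : Om}, m ∈ MM N j0 → rk m < j0 := by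
    rintro m j0 ⟨j, hj, hm⟩
    exact (hrk1 m j hm).trans_lt hj
  have hMM' : ∀ {m : K} {j0 : Om}, (∃ j, m ∈ N j) → rk m < j0 → m ∈ MM N j0 := by
    intro m j0 hm hlt
    exact ⟨rk m, hlt, hrk2 m hm⟩
  have hself : ∀ k, k ∉ MM N (rk k) := fun k hk => lt_irrefl _ (hMM hk)
  -- the set `D`
  obtain ⟨D, hD⟩ : ∃ D : Set K, ∀ k, k ∈ D ↔ ((∃ j, k ∈ N j) ∧
      ((∀ j, rk k ≤ j) ∨ ∃ z ∈ MM N (rk k), Nr (MM N (rk k)) z k)) :=
    ⟨{k | _}, fun k => Iff.rfl⟩
  -- points outside `D` are two-sided limits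
  have hlim : ∀ k, (∃ j, k ∈ N j) → k ∉ D → (∀ u, u < k → ∃ m ∈ MM N (rk k), u < m ∧ m < k) ∧
      (∀ v, k < v → ∃ m ∈ MM N (rk k), k < m ∧ m < v) := by
    intro k hk hkD
    rw [hD] at hkD
    have h1 : ¬ ((∀ j, rk k ≤ j) ∨ ∃ z ∈ MM N (rk k), Nr (MM N (rk k)) z k) :=
      fun h => hkD ⟨hk, h⟩
    push Not at h1
    obtain ⟨⟨j, hj⟩, h2⟩ := h1
    refine hA (rk k) ⟨j, hj⟩ k (hself k) ?_ ?_
    · intro n hn hnk
      by_contra hcon
      push Not at hcon
      refine h2 n hn (Or.inl ⟨hnk, fun m hm hmk => ?_⟩)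
      by_contra hlt
      exact absurd hmk (not_lt_of_ge (hcon m hm (lt_of_not_ge hlt)))
    · intro n hn hnk
      by_contra hcon
      push Not at hcon
      refine h2 n hn (Or.inr ⟨hnk, fun m hm hmk => hcon m hm hmk⟩)
  -- neighbours lie in `D`
  have hnb : ∀ k, ∀ z ∈ MM N (rk k), Nr (MM N (rk k)) z k → z ∈ D := by
    intro k z hz hnr
    have hzN : ∃ j, z ∈ N j := ⟨hz.choose, hz.choose_spec.2⟩
    by_contra hzD
    obtain ⟨h1, h2⟩ := hlim z hzN hzD
    have hsub : ∀ m ∈ MM N (rk z), m ∈ MM N (rk k) := by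
      rintro m ⟨j, hj, hm⟩
      exact ⟨j, hj.trans (hMM hz), hm⟩
    rcases hnr with ⟨h3, h4⟩ | ⟨h3, h4⟩
    · obtain ⟨m, hm, hm1, hm2⟩ := h2 k h3
      exact absurd (h4 m (hsub m hm) hm2) (not_le_of_gt hm1)
    · obtain ⟨m, hm, hm1, hm2⟩ := h1 k h3
      exact absurd (h4 m (hsub m hm) hm1) (not_le_of_gt hm2)
  -- density
  have hdense : ∀ k, k ∉ D → ∀ u, u < k → ∃ d ∈ D, u < d ∧ d < k := by
    intro k hk u huk
    have hex : ∃ m, (∃ j, m ∈ N j) ∧ u < m ∧ m < k := by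
      by_cases hkN : ∃ j, k ∈ N j
      · obtain ⟨m, ⟨j, hj, hm⟩, hm1, hm2⟩ := (hlim k hkN hk).1 u huk
        exact ⟨m, ⟨j, hm⟩, hm1, hm2⟩
      · push Not at hkN
        exact hB k hkN u huk
    obtain ⟨e, ⟨he, he1, he2⟩, hmin⟩ := WellFounded.has_min
      (InvImage.wf rk (wellFounded_lt (α := Om))) {m | (∃ j, m ∈ N j) ∧ u < m ∧ m < k} hex
    refine ⟨e, ?_, he1, he2⟩
    by_contra heD
    obtain ⟨m, hm, hm1, hm2⟩ := (hlim e he heD).1 u he1
    exact hmin m ⟨⟨hm.choose, hm.choose_spec.2⟩, hm1, hm2.trans he2⟩ (hMM hm)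
  have hDN : ∀ d : D, ∃ j, d.1 ∈ N j := fun d => ((hD d.1).1 d.2).1
  -- the parent function
  have hβex : ∀ d : D, ∃ o : Option D, (o = none → ∀ j, rk d.1 ≤ j) ∧
      (∀ z : D, o = some z → z.1 ∈ MM N (rk d.1) ∧ Nr (MM N (rk d.1)) z.1 d.1) := by
    intro d
    rcases ((hD d.1).1 d.2).2 with h | ⟨z, hz, hnr⟩
    · exact ⟨none, fun _ => h, fun z hz => by simp at hz⟩
    · refine ⟨some ⟨z, hnb d.1 z hz hnr⟩, fun h => by simp at h, ?_⟩
      intro z' hz'
      have : (⟨z, hnb d.1 z hz hnr⟩ : D) = z' := Option.some.inj hz'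
      rw [← this]
      exact ⟨hz, hnr⟩
  choose β hβ1 hβ2 using hβex
  let τ : TopologicalSpace (LowerSet D) := Preorder.topology (LowerSet D)
  have hτ : OrderTopology (LowerSet D) := ⟨rfl⟩
  have hval := lowerSet_valdivia (D := D) (fun d : D => rk d.1)
    (by
      intro e
      refine ((hctb (rk e.1)).preimage Subtype.val_injective).mono ?_
      intro d hd
      exact hN hd (hrk2 d.1 (hDN d)))
    β
    (by
      refine ((hctb ⟨0, Ordinal.omega_pos 1⟩).preimage Subtype.val_injective).mono ?_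
      intro d hd
      exact hN (hβ1 d hd _) (hrk2 d.1 (hDN d)))
    (by
      intro d z hz
      exact hMM (hβ2 d z hz).1)
    (by
      intro d z hz e he
      have heM : e.1 ∈ MM N (rk d.1) := hMM' (hDN e) he
      rcases (hβ2 d z hz).2 with ⟨h1, h2⟩ | ⟨h1, h2⟩
      · refine ⟨fun h => ?_, fun h => ?_⟩
        · exact absurd (h.1.trans h.2) (not_lt_of_gt h1)
        · exact absurd (h2 e.1 heM h.2) (not_le_of_gt h.1)
      · refine ⟨fun h => ?_, fun h => ?_⟩
        · exact absurd (h2 e.1 heM h.1) (not_le_of_gt h.2)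
        · exact absurd (h.1.trans h.2) (not_lt_of_gt h1))
  -- the map
  have hgex : ∀ I : LowerSet D, ∃ a, IsLUB (insert b (Subtype.val '' (I : Set D))) a := by
    intro I
    obtain ⟨a, _, hlub⟩ := (isClosed_closure (s := insert b (Subtype.val '' (I : Set D)))
      ).isCompact.exists_isLUB (Set.insert_nonempty _ _).closure
    exact ⟨a, (isLUB_iff_of_subset_of_subset_closure subset_closure le_rfl).2 hlub⟩
  choose g hg using hgex
  have hgm : Monotone g := by
    intro I J hIJ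
    exact (hg I).mono (hg J) (Set.insert_subset_insert (Set.image_mono hIJ))
  have hge : ∀ (I : LowerSet D) (d : D), d ∈ I → d.1 ≤ g I := fun I d hd =>
    (hg I).1 (Or.inr ⟨d, hd, rfl⟩)
  have hle : ∀ (I : LowerSet D) (u : K), (∀ d ∈ I, (d : D).1 ≤ u) → g I ≤ u := by
    intro I u hu
    refine (hg I).2 ?_
    rintro x (hx | ⟨d, hd, rfl⟩)
    · rw [hx]; exact hb u
    · exact hu d hd
  refine ⟨LowerSet D, inferInstance, τ, hτ, inferInstance, hval, g, ?_, ?_, hgm⟩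
  · rw [OrderTopology.continuous_iff]
    intro k
    constructor
    · have he : g ⁻¹' Ioi k = ⋃ d ∈ {d : D | k < d.1}, {I : LowerSet D | d ∈ I} := by
        ext I
        simp only [Set.mem_preimage, Set.mem_Ioi, Set.mem_iUnion, Set.mem_ofPred_eq]
        constructor
        · intro h
          obtain ⟨x, hx, hx'⟩ := (lt_isLUB_iff (hg I)).1 h
          rcases hx with hx | ⟨d, hd, rfl⟩
          · rw [hx] at hx'
            exact absurd hx' (not_lt_of_ge (hb k))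
          · exact ⟨d, hx', hd⟩
        · rintro ⟨d, hd, hd'⟩
          exact hd.trans_le (hge I d hd')
      rw [he]
      exact isOpen_biUnion fun d _ => (isClopen_mem d).isOpen
    · rw [isOpen_iff_mem_nhds]
      intro I hI
      have hIk : g I < k := hI
      by_cases hcase : ∃ d : D, d ∉ I ∧ d.1 < k
      · obtain ⟨d, hd, hdk⟩ := hcase
        refine Filter.mem_of_superset ((isClopen_mem d).isClosed.isOpen_compl.mem_nhds hd) ?_
        intro J hJ
        have hJ' : d ∉ J := hJ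
        refine lt_of_le_of_lt (hle J d.1 fun e he => ?_) hdk
        by_contra hlt
        exact hJ' (J.lower (le_of_not_ge hlt) he)
      · push Not at hcase
        have hkD : k ∈ D := by
          by_contra hkD
          obtain ⟨d, hd, hd1, hd2⟩ := hdense k hkD (g I) hIk
          by_cases hdI : (⟨d, hd⟩ : D) ∈ I
          · exact absurd (hge I ⟨d, hd⟩ hdI) (not_le_of_gt hd1)
          · exact absurd (hcase ⟨d, hd⟩ hdI) (not_le_of_gt hd2)
        have hkI : (⟨k, hkD⟩ : D) ∉ I := fun h => absurd (hge I _ h) (not_le_of_gt hIk)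
        refine Filter.mem_of_superset
          ((isClopen_mem (⟨k, hkD⟩ : D)).isClosed.isOpen_compl.mem_nhds hkI) ?_
        intro J hJ
        have hJ' : (⟨k, hkD⟩ : D) ∉ J := hJ
        refine lt_of_le_of_lt (hle J (g I) fun e he => ?_) hIk
        have hek : e.1 < k := by
          by_contra hlt
          exact hJ' (J.lower (show (⟨k, hkD⟩ : D) ≤ e from le_of_not_gt hlt) he)
        refine hge I e ?_
        by_contra heI
        exact absurd (hcase e heI) (not_le_of_gt hek)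
  · intro k
    refine ⟨⟨{d : D | d.1 ≤ k}, fun d e hed hd => le_trans hed hd⟩, ?_⟩
    refine (hg _).unique ⟨?_, ?_⟩
    · rintro x (hx | ⟨d, hd, rfl⟩)
      · rw [hx]; exact hb k
      · exact hd
    · intro u hu
      by_contra hlt
      have hlt' : u < k := lt_of_not_ge hlt
      by_cases hkD : k ∈ D
      · exact absurd (hu (Or.inr ⟨⟨k, hkD⟩, le_refl k, rfl⟩)) hlt
      · obtain ⟨d, hd, hd1, hd2⟩ := hdense k hkD u hlt'
        exact absurd (hu (Or.inr ⟨⟨d, hd⟩, hd2.le, rfl⟩)) (not_le_of_gt hd1)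

end Pool.Agent.Lib_MP_e33218_gt
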