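import Pool.Agent.Lib_MP_e33218_gt.Trip

set_option autoImplicit false

namespace Pool.Agent.Lib_MP_e33218_gt

open Set Topology

variable {V Γ K : Type}

section gap

variable [LinearOrder K] [TopologicalSpace K] [OrderTopology K]

theorem exists_lub [CompactSpace K] (S : Set K) (hS : S.Nonempty) : ∃ a, IsLUB S a := by
  obtain ⟨a, _, hlub⟩ := (isClosed_closure (s := S)).isCompact.exists_isLUB hS.closure
  exact ⟨a, (isLUB_iff_of_subset_of_subset_closure subset_closure le_rfl).2 hlub⟩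

theorem exists_glb [CompactSpace K] (S : Set K) (hS : S.Nonempty) : ∃ a, IsGLB S a := by
  obtain ⟨a, _, hlub⟩ := (isClosed_closure (s := S)).isCompact.exists_isGLB hS.closure
  exact ⟨a, (isGLB_iff_of_subset_of_subset_closure subset_closure le_rfl).2 hlub⟩

variable [TopologicalSpace V]

theorem gap_below {a : K} {M : Set K} (hM : IsLUB M a) (hne : M.Nonempty) (haM : a ∉ M)
    {F : Set V} (hF : IsCompact F) {f : V → K} (hf : Continuous f) (hFa : ∀ v ∈ F, f v < a) :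
    ∃ c ∈ M, c < a ∧ ∀ v ∈ F, f v < c := by
  rcases F.eq_empty_or_nonempty with hF0 | hF0
  · obtain ⟨c, hc⟩ := hne
    refine ⟨c, hc, lt_of_le_of_ne (hM.1 hc) (fun h => haM (h ▸ hc)), ?_⟩
    rw [hF0]
    intro v hv
    exact absurd hv (Set.notMem_empty v)
  · obtain ⟨m, ⟨v₀, hv₀, rfl⟩, hm⟩ := (hF.image hf).exists_isGreatest (hF0.image f)
    obtain ⟨c, hc, hlt⟩ := (lt_isLUB_iff hM).1 (hFa v₀ hv₀)
    refine ⟨c, hc, lt_of_le_of_ne (hM.1 hc) (fun h => haM (h ▸ hc)), ?_⟩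
    intro v hv
    exact lt_of_le_of_lt (hm ⟨v, hv, rfl⟩) hlt

theorem gap_above {b : K} {M : Set K} (hM : IsGLB M b) (hne : M.Nonempty) (hbM : b ∉ M)
    {F : Set V} (hF : IsCompact F) {f : V → K} (hf : Continuous f) (hFb : ∀ v ∈ F, b < f v) :
    ∃ c ∈ M, b < c ∧ ∀ v ∈ F, c < f v := by
  rcases F.eq_empty_or_nonempty with hF0 | hF0
  · obtain ⟨c, hc⟩ := hne
    refine ⟨c, hc, lt_of_le_of_ne (hM.1 hc) (fun h => hbM (h ▸ hc)), ?_⟩
    rw [hF0]
    intro v hv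
    exact absurd hv (Set.notMem_empty v)
  · obtain ⟨m, ⟨v₀, hv₀, rfl⟩, hm⟩ := (hF.image hf).exists_isLeast (hF0.image f)
    obtain ⟨c, hc, hlt⟩ := (isGLB_lt_iff hM).1 (hFb v₀ hv₀)
    refine ⟨c, hc, lt_of_le_of_ne (hM.1 hc) (fun h => hbM (h ▸ hc)), ?_⟩
    intro v hv
    exact lt_of_lt_of_le hlt (hm ⟨v, hv, rfl⟩)

/-- a nonempty open interval contains the image of a point with countable support -/
theorem exists_sc_between {h : V → Γ → ℝ} {f : V → K} (hf : Continuous f)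
    (hfs : Function.Surjective f) (hd : Dense {v | SC h v}) {u v k : K} (h1 : u < k) (h2 : k < v) :
    ∃ x, SC h x ∧ u < f x ∧ f x < v := by
  obtain ⟨w, hw⟩ := hfs k
  obtain ⟨x, hx1, hx2⟩ := hd.inter_open_nonempty (f ⁻¹' Ioo u v) (isOpen_Ioo.preimage hf)
    ⟨w, by rw [Set.mem_preimage, hw]; exact ⟨h1, h2⟩⟩
  exact ⟨x, hx2, hx1.1, hx1.2⟩

/-- a closed triple meets every nonempty interval with end points in it -/
theorem Cl.exists_between {h : V → Γ → ℝ} {f : V → K} (hf : Continuous f)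
    (hfs : Function.Surjective f) (hd : Dense {v | SC h v}) {G : Set Γ} {E : Set V} {N : Set K}
    (hcl : Cl h f G E N) {u v k : K} (hu : u ∈ N) (hv : v ∈ N) (h1 : u < k) (h2 : k < v) :
    ∃ x ∈ E, u < f x ∧ f x < v := by
  obtain ⟨x, hx1, hx2, hx3⟩ := exists_sc_between hf hfs hd h1 h2
  obtain ⟨y, hy, hy1, hy2, _⟩ := hcl.q1 u hu v hv [] over_nil ⟨x, hx1, hx2, hx3, not_inO_nil⟩
  exact ⟨y, hy, hy1, hy2⟩

variable [CompactSpace V] [CompactSpace K]

theorem main_lemma {h : V → Γ → ℝ} (hc : Continuous h) (hi : Function.Injective h)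
    {f : V → K} (hf : Continuous f) (hfs : Function.Surjective f) (hd : Dense {v | SC h v})
    {G : Set Γ} {E : Set V} {N : Set K} (hcl : Cl h f G E N)
    (hlub : ∀ c ∈ N, ∀ ℓ, Over G ℓ → ∀ t,
      IsLUB {t | ∀ x, SC h x → c < f x → f x < t → inO h ℓ x} t → t ∈ N)
    {k : K} (hk : k ∉ N) (hbot : ∃ n ∈ N, n < k) (htop : ∃ n ∈ N, k < n)
    (hnomax : ∀ n ∈ N, n < k → ∃ m ∈ N, n < m ∧ m < k)
    (hnomin : ∀ n ∈ N, k < n → ∃ m ∈ N, k < m ∧ m < n) :
    IsLUB (N ∩ Iio k) k ∧ IsGLB (N ∩ Ioi k) k := by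
  have hne1 : (N ∩ Iio k).Nonempty := by
    obtain ⟨n, hn, hn'⟩ := hbot
    exact ⟨n, hn, hn'⟩
  have hne2 : (N ∩ Ioi k).Nonempty := by
    obtain ⟨n, hn, hn'⟩ := htop
    exact ⟨n, hn, hn'⟩
  obtain ⟨a, ha⟩ := exists_lub _ hne1
  obtain ⟨b, hb⟩ := exists_glb _ hne2
  have hak : a ≤ k := ha.2 fun n hn => le_of_lt hn.2
  have hkb : k ≤ b := hb.2 fun n hn => le_of_lt hn.2
  rcases eq_or_lt_of_le (hak.trans hkb) with hab | hab
  · have h1 : a = k := le_antisymm hak (hkb.trans hab.symm.le)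
    have h2 : b = k := le_antisymm (hab.symm.le.trans hak) hkb
    rw [h1] at ha
    rw [h2] at hb
    exact ⟨ha, hb⟩
  exfalso
  have haN : a ∉ N := by
    intro haN
    have h1 : a < k := lt_of_le_of_ne hak (fun h => hk (h ▸ haN))
    obtain ⟨m, hm, hm1, hm2⟩ := hnomax a haN h1
    exact absurd (ha.1 ⟨hm, hm2⟩) (not_le_of_gt hm1)
  have hbN : b ∉ N := by
    intro hbN
    have h1 : k < b := lt_of_le_of_ne hkb (fun h => hk (h ▸ hbN))
    obtain ⟨m, hm, hm1, hm2⟩ := hnomin b hbN h1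
    exact absurd (hb.1 ⟨hm, hm1⟩) (not_le_of_gt hm2)
  have haM : a ∉ N ∩ Iio k := fun h => haN h.1
  have hbM : b ∉ N ∩ Ioi k := fun h => hbN h.1
  -- dichotomy for points of `N`
  have hdich : ∀ n ∈ N, n < a ∨ b < n := by
    intro n hn
    rcases lt_trichotomy n k with h | h | h
    · left
      exact lt_of_le_of_ne (ha.1 ⟨hn, h⟩) (fun h' => haN (h' ▸ hn))
    · exact absurd (h ▸ hn) hk
    · right
      exact lt_of_le_of_ne (hb.1 ⟨hn, h⟩) (fun h' => hbN (h' ▸ hn))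
  -- separation
  have hPc : IsCompact (closure E ∩ f ⁻¹' {a}) :=
    (isClosed_closure.inter (isClosed_singleton.preimage hf)).isCompact
  have hQc : IsCompact (closure E ∩ f ⁻¹' {b}) :=
    (isClosed_closure.inter (isClosed_singleton.preimage hf)).isCompact
  obtain ⟨ℓ, hℓ, hP, hQ⟩ := sep_sets (G := G) hc hPc hQc (by
    rintro p ⟨hp1, hp2⟩ q ⟨hq1, hq2⟩
    by_contra hcon
    push Not at hcon
    have hpq : p = q := by
      apply hi
      funext γ
      by_cases hγ : γ ∈ G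
      · exact hcon γ hγ
      · rw [closure_supp hc hcl.supp hp1 hγ, closure_supp hc hcl.supp hq1 hγ]
    have h1 : f p = a := hp2
    have h2 : f q = b := hq2
    rw [hpq, h2] at h1
    exact absurd h1.symm hab.ne)
  -- the point `c`
  obtain ⟨c, hcM, hca, hcF⟩ := gap_below ha hne1 haM
    (F := closure E ∩ (f ⁻¹' (Iic a) ∩ {v | inO h ℓ v}ᶜ))
    (isClosed_closure.inter ((isClosed_Iic.preimage hf).inter
      (isOpen_inO hc ℓ).isClosed_compl)).isCompact hf (by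
      rintro v ⟨hv1, hv2, hv3⟩
      refine lt_of_le_of_ne hv2 fun h => hv3 (hP v ⟨hv1, h⟩))
  obtain ⟨d, hdM, hbd, hdF⟩ := gap_above hb hne2 hbM
    (F := closure E ∩ (f ⁻¹' (Ici b) ∩ {v | inC h ℓ v}))
    (isClosed_closure.inter ((isClosed_Ici.preimage hf).inter
      (isClosed_inC hc ℓ))).isCompact hf (by
      rintro v ⟨hv1, hv2, hv3⟩
      refine lt_of_le_of_ne hv2 fun h => hQ v ⟨hv1, h.symm⟩ hv3)
  have hc1 : ∀ x ∈ E, c < f x → f x ≤ a → inO h ℓ x := by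
    intro x hx h1 h2
    by_contra h3
    exact absurd (hcF x ⟨subset_closure hx, h2, h3⟩) (not_lt_of_gt h1)
  have hd1 : ∀ x ∈ E, b ≤ f x → f x < d → ¬ inO h ℓ x := by
    intro x hx h1 h2 h3
    exact absurd (hdF x ⟨subset_closure hx, h1, h3.inC⟩) (not_lt_of_gt h2)
  -- the critical value
  have hT : ∀ n ∈ N, n < k → n ∈ {t | ∀ x, SC h x → c < f x → f x < t → inO h ℓ x} := by
    intro n hn hnk x hx h1 h2
    by_contra h3
    obtain ⟨y, hy, hy1, hy2, hy3⟩ := hcl.q1 c hcM.1 n hn ℓ hℓ ⟨x, hx, h1, h2, h3⟩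
    exact hy3 (hc1 y hy hy1 (hy2.le.trans (ha.1 ⟨hn, hnk⟩)))
  have hTb : ∀ t ∈ {t | ∀ x, SC h x → c < f x → f x < t → inO h ℓ x}, t ≤ b := by
    intro t ht
    by_contra htb
    have htb' : b < t := lt_of_not_ge htb
    have hlt : b < min d t := lt_min hbd htb'
    obtain ⟨n3, hn3, hn3'⟩ := (isGLB_lt_iff hb).1 hlt
    have hb3 : b < n3 := lt_of_le_of_ne (hb.1 hn3) (fun h => hbM (h ▸ hn3))
    obtain ⟨n2, hn2, hn2'⟩ := (isGLB_lt_iff hb).1 hb3
    have hb2 : b < n2 := lt_of_le_of_ne (hb.1 hn2) (fun h => hbM (h ▸ hn2))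
    obtain ⟨n1, hn1, hn1'⟩ := (isGLB_lt_iff hb).1 hb2
    have hb1 : b < n1 := lt_of_le_of_ne (hb.1 hn1) (fun h => hbM (h ▸ hn1))
    obtain ⟨x, hx, hx1, hx2⟩ := hcl.exists_between hf hfs hd hn1.1 hn3.1 hn1' hn2'
    have hxd : f x < d := hx2.trans (hn3'.trans_le (min_le_left _ _))
    have hxt : f x < t := hx2.trans (hn3'.trans_le (min_le_right _ _))
    have hbx : b < f x := hb1.trans hx1
    have hcx : c < f x := hca.trans (hab.trans hbx)
    exact hd1 x hx hbx.le hxd (ht x (hcl.sc x hx) hcx hxt)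
  obtain ⟨n₀, hn₀, hn₀'⟩ := hbot
  obtain ⟨t, htl⟩ := exists_lub {t | ∀ x, SC h x → c < f x → f x < t → inO h ℓ x}
    ⟨n₀, hT n₀ hn₀ hn₀'⟩
  have htN : t ∈ N := hlub c hcM.1 ℓ hℓ t htl
  have hat : a ≤ t := ha.2 fun n hn => htl.1 (hT n hn.1 hn.2)
  have htb : t ≤ b := htl.2 hTb
  rcases hdich t htN with h | h
  · exact absurd h (not_lt_of_ge hat)
  · exact absurd h (not_lt_of_ge htb)

end gap

end Pool.Agent.Lib_MP_e33218_gt
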