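import Pool.Agent.Lib_MP_e33218_gt.MainLemma

set_option autoImplicit false

namespace Pool.Agent.Lib_MP_e33218_gt

open Set Topology

variable {V Γ K : Type} [LinearOrder K] [TopologicalSpace K] [OrderTopology K]
  [TopologicalSpace V] [CompactSpace V] [CompactSpace K]

omit [TopologicalSpace V] [CompactSpace V] in
theorem inO_congr {h : V → Γ → ℝ} {G : Set Γ} {ℓ : Code Γ} (hℓ : Over G ℓ) {x y : V}
    (hxy : ∀ γ ∈ G, h y γ = h x γ) (hx : inO h ℓ x) : inO h ℓ y := by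
  obtain ⟨b, hb, hb'⟩ := hx
  refine ⟨b, hb, fun t ht => ?_⟩
  rw [hxy t.1 (hℓ b hb t ht)]
  exact hb' t ht

theorem limit_mem {h : V → Γ → ℝ} (hc : Continuous h) (hi : Function.Injective h)
    {f : V → K} (hf : Continuous f) (hfs : Function.Surjective f) (hd : Dense {v | SC h v})
    {J : Type*} [LinearOrder J] {G : J → Set Γ} {E : J → Set V} {N : J → Set K}
    (hG : Monotone G) (hN : Monotone N)
    (hcl : ∀ j, Cl h f (G j) (E j) (N j))
    (hU : Cl h f (⋃ j, G j) (⋃ j, E j) (⋃ j, N j))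
    (hσ : ∀ s : Set J, s.Countable → ∃ b, ∀ a ∈ s, a ≤ b)
    (hnext : ∀ j, ∀ z ∈ N j, ∀ a, IsLUB (N j ∩ Iio z) a → a ∈ ⋃ j, N j)
    {z a : K} (hz : z ∈ ⋃ j, N j) (hne : ∃ n ∈ ⋃ j, N j, n < z)
    (ha : IsLUB ((⋃ j, N j) ∩ Iio z) a) (haz : a < z) : a ∈ ⋃ j, N j := by
  by_contra haN
  obtain ⟨j1, hj1⟩ := Set.mem_iUnion.1 hz
  obtain ⟨n, hn, hnz⟩ := hne
  obtain ⟨j2, hj2⟩ := Set.mem_iUnion.1 hn
  have hzj : ∀ j, max j1 j2 ≤ j → z ∈ N j := fun j hj => hN ((le_max_left _ _).trans hj) hj1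
  have hnj : ∀ j, max j1 j2 ≤ j → (N j ∩ Iio z).Nonempty := fun j hj =>
    ⟨n, hN ((le_max_right _ _).trans hj) hj2, hnz⟩
  have hfact : ∀ j, max j1 j2 ≤ j → ∀ a', IsLUB (N j ∩ Iio z) a' → a' < a ∧ a' ∉ N j := by
    intro j hj a' ha'
    have h1 : a' ≤ a := ha'.mono ha
      (Set.inter_subset_inter_left _ (Set.subset_iUnion N j))
    have h2 : a' ≠ a := fun h => haN (h ▸ hnext j z (hzj j hj) a' ha')
    have h3 : a' < a := lt_of_le_of_ne h1 h2
    refine ⟨h3, fun h4 => ?_⟩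
    obtain ⟨x, hx, hx1, hx2⟩ := (hcl j).exists_between hf hfs hd h4 (hzj j hj) h3 haz
    exact absurd (ha'.1 ⟨(hcl j).img x hx, hx2⟩) (not_le_of_gt hx1)
  obtain ⟨a', ha'⟩ := exists_lub _ (hnj _ le_rfl)
  obtain ⟨haa, haN'⟩ := hfact _ le_rfl a' ha'
  generalize hj0 : max j1 j2 = j0 at *
  have haz' : a' < z := haa.trans haz
  -- separation
  have hPc : IsCompact (closure (E j0) ∩ f ⁻¹' {a'}) :=
    (isClosed_closure.inter (isClosed_singleton.preimage hf)).isCompact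
  have hQc : IsCompact (closure (E j0) ∩ f ⁻¹' {z}) :=
    (isClosed_closure.inter (isClosed_singleton.preimage hf)).isCompact
  obtain ⟨ℓ, hℓ, hP, hQ⟩ := sep_sets (G := G j0) hc hPc hQc (by
    rintro p ⟨hp1, hp2⟩ q ⟨hq1, hq2⟩
    by_contra hcon
    push Not at hcon
    have hpq : p = q := by
      apply hi
      funext γ
      by_cases hγ : γ ∈ G j0
      · exact hcon γ hγ
      · rw [closure_supp hc (hcl j0).supp hp1 hγ, closure_supp hc (hcl j0).supp hq1 hγ]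
    have h1 : f p = a' := hp2
    have h2 : f q = z := hq2
    rw [hpq, h2] at h1
    exact absurd h1.symm haz'.ne)
  have haM : a' ∉ N j0 ∩ Iio z := fun h => haN' h.1
  obtain ⟨c, hcM, hca, hcF⟩ := gap_below ha' (hnj _ le_rfl) haM
    (F := closure (E j0) ∩ (f ⁻¹' (Iic a') ∩ {v | inO h ℓ v}ᶜ))
    (isClosed_closure.inter ((isClosed_Iic.preimage hf).inter
      (isOpen_inO hc ℓ).isClosed_compl)).isCompact hf (by
      rintro v ⟨hv1, hv2, hv3⟩
      refine lt_of_le_of_ne hv2 fun h => hv3 (hP v ⟨hv1, h⟩))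
  have hI : ∀ x, SC h x → c < f x → f x < z → inO h ℓ x := by
    intro x hx h1 h2
    by_contra h3
    obtain ⟨y, hy, hy1, hy2, hy3⟩ := (hcl j0).q1 c hcM.1 z (hzj _ le_rfl) ℓ hℓ
      ⟨x, hx, h1, h2, h3⟩
    have hy4 : f y ≤ a' := ha'.1 ⟨(hcl j0).img y hy, hy2⟩
    exact absurd (hcF y ⟨subset_closure hy, hy4, hy3⟩) (not_lt_of_gt hy1)
  have hII : ∀ x, SC h x → f x = z → ¬ inO h ℓ x := by
    intro x hx h1 h2
    obtain ⟨y, hy, hy1, hy2⟩ := (hcl j0).qeq z (hzj _ le_rfl) ℓ hℓ ⟨x, hx, h1, h2⟩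
    exact hQ y ⟨subset_closure hy, hy1⟩ hy2.inC
  -- a point between `a` and `z`
  obtain ⟨k, hk1, hk2⟩ : ∃ k, a < k ∧ k < z := by
    by_contra hcon
    push Not at hcon
    exact haN (hU.covL z hz a ⟨haz, fun k h1 h2 => absurd h2 (not_lt_of_ge (hcon k h1))⟩)
  obtain ⟨x, hx, hx1, hx2⟩ := exists_sc_between hf hfs hd hk1 hk2
  obtain ⟨y, hy, hy1, hy2, hy3, hy4, _⟩ := exists_restr hc hi hf hU hx
  have hysc : SC h y := by
    refine Set.Countable.mono ?_ hx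
    intro γ hγ
    by_cases hγG : γ ∈ ⋃ j, G j
    · have h1 : h y γ ≠ 0 := hγ
      rw [hy1 γ hγG] at h1
      exact h1
    · exact absurd (hy2 γ hγG) hγ
  have hyO : inO h ℓ y :=
    inO_congr hℓ (fun γ hγ => hy1 γ (Set.mem_iUnion.2 ⟨j0, hγ⟩))
      (hI x hx (hca.trans (haa.trans hx1)) hx2)
  have hya : a ≤ f y := by
    by_contra hcon
    obtain ⟨m, hm, hm'⟩ := (lt_isLUB_iff ha).1 (lt_of_not_ge hcon)
    have h1 : m < a := lt_of_le_of_ne (ha.1 hm) (fun h => haN (h ▸ hm.1))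
    exact absurd (hy4 m hm.1 (h1.trans hx1)) (not_le_of_gt hm')
  have hyz : f y < z := lt_of_le_of_ne (hy3 z hz hx2) (fun h => hII y hysc h hyO)
  -- the support of `y` lies in some `G j`
  have hsupp : ∀ γ : {γ | h y γ ≠ 0}, ∃ j, γ.1 ∈ G j := by
    rintro ⟨γ, hγ⟩
    by_contra hcon
    have : γ ∉ ⋃ j, G j := fun h => hcon (Set.mem_iUnion.1 h)
    exact hγ (hy2 γ this)
  choose jj hjj using hsupp
  have := hysc.to_subtype
  have hctb : (Set.range jj).Countable := by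
    have hh : Countable ({γ | h y γ ≠ 0} : Set Γ) := hysc.to_subtype
    exact Set.countable_range jj
  obtain ⟨b, hb⟩ := hσ _ hctb
  have hsub : ∀ γ, h y γ ≠ 0 → γ ∈ G (max b j0) := fun γ hγ =>
    hG ((hb _ ⟨⟨γ, hγ⟩, rfl⟩).trans (le_max_left _ _)) (hjj ⟨γ, hγ⟩)
  obtain ⟨y', hy', hy1', hy2', _⟩ := exists_restr hc hi hf (hcl (max b j0)) hysc
  have hyy : y' = y := by
    apply hi
    funext γ
    by_cases hγ : γ ∈ G (max b j0)
    · exact hy1' γ hγ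
    · rw [hy2' γ hγ]
      by_contra hne
      exact hγ (hsub γ (Ne.symm hne))
  rw [hyy] at hy'
  obtain ⟨a2, ha2⟩ := exists_lub _ (hnj (max b j0) (le_max_right _ _))
  obtain ⟨haa2, _⟩ := hfact _ (le_max_right _ _) a2 ha2
  obtain ⟨e, he1, he2⟩ := mem_closure_iff.1 hy' (f ⁻¹' Ioo a2 z) (isOpen_Ioo.preimage hf)
    ⟨haa2.trans_le hya, hyz⟩
  exact absurd (ha2.1 ⟨(hcl _).img e he2, he1.2⟩) (not_le_of_gt he1.1)

theorem limit_mem' {h : V → Γ → ℝ} (hc : Continuous h) (hi : Function.Injective h)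
    {f : V → K} (hf : Continuous f) (hfs : Function.Surjective f) (hd : Dense {v | SC h v})
    {J : Type*} [LinearOrder J] {G : J → Set Γ} {E : J → Set V} {N : J → Set K}
    (hG : Monotone G) (hN : Monotone N)
    (hcl : ∀ j, Cl h f (G j) (E j) (N j))
    (hU : Cl h f (⋃ j, G j) (⋃ j, E j) (⋃ j, N j))
    (hσ : ∀ s : Set J, s.Countable → ∃ b, ∀ a ∈ s, a ≤ b)
    (hnext : ∀ j, ∀ z ∈ N j, ∀ a, IsGLB (N j ∩ Ioi z) a → a ∈ ⋃ j, N j)
    {z a : K} (hz : z ∈ ⋃ j, N j) (hne : ∃ n ∈ ⋃ j, N j, z < n)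
    (ha : IsGLB ((⋃ j, N j) ∩ Ioi z) a) (haz : z < a) : a ∈ ⋃ j, N j := by
  have hN' : Monotone (fun j => (OrderDual.ofDual ⁻¹' (N j) : Set Kᵒᵈ)) := fun i j hij =>
    Set.preimage_mono (hN hij)
  have e1 : (⋃ j, (OrderDual.ofDual ⁻¹' (N j) : Set Kᵒᵈ)) = OrderDual.ofDual ⁻¹' (⋃ j, N j) := by
    rw [Set.preimage_iUnion]
  have hf' : Continuous (fun v => OrderDual.toDual (f v)) := continuous_toDual.comp hf
  have hfs' : Function.Surjective (fun v => OrderDual.toDual (f v)) :=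
    OrderDual.toDual.surjective.comp hfs
  have hUd := hU.dual
  rw [← e1] at hUd
  have hcomp : CompactSpace Kᵒᵈ := ⟨by
    have h1 : IsCompact (Set.univ : Set K) := isCompact_univ
    have h2 := h1.image (f := OrderDual.toDual) continuous_toDual
    rwa [Set.image_univ, OrderDual.toDual.surjective.range_eq] at h2⟩
  have key := limit_mem (K := Kᵒᵈ) hc hi hf' hfs' hd hG hN'
    (fun j => (hcl j).dual) hUd hσ ?_ (z := OrderDual.toDual z) (a := OrderDual.toDual a)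
    ?_ ?_ ?_ ?_
  · rw [e1] at key
    exact key
  · intro j z hz a ha
    rw [e1]
    exact hnext j (OrderDual.ofDual z) hz (OrderDual.ofDual a) ha
  · rw [e1]
    exact hz
  · rw [e1]
    obtain ⟨n, hn, hn'⟩ := hne
    exact ⟨OrderDual.toDual n, hn, hn'⟩
  · rw [e1]
    exact ha
  · exact haz

end Pool.Agent.Lib_MP_e33218_gt
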