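import Pool.Agent.Lib_MP_e33218_gt.System

set_option autoImplicit false

namespace Pool.Agent.Lib_MP_e33218_gt

open Set Topology

/-- a code for a finite union of rational boxes -/
abbrev Code (Γ : Type) : Type := List (List (Γ × ℚ × ℚ))

/-- membership in the finite union of open boxes coded by `ℓ` -/
def inO {V Γ : Type} (h : V → Γ → ℝ) (ℓ : Code Γ) (v : V) : Prop :=
  ∃ b ∈ ℓ, ∀ t ∈ b, (t.2.1 : ℝ) < h v t.1 ∧ h v t.1 < (t.2.2 : ℝ)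

/-- membership in the finite union of closed boxes coded by `ℓ` -/
def inC {V Γ : Type} (h : V → Γ → ℝ) (ℓ : Code Γ) (v : V) : Prop :=
  ∃ b ∈ ℓ, ∀ t ∈ b, (t.2.1 : ℝ) ≤ h v t.1 ∧ h v t.1 ≤ (t.2.2 : ℝ)

/-- the code uses only coordinates in `G` -/
def Over {Γ : Type} (G : Set Γ) (ℓ : Code Γ) : Prop := ∀ b ∈ ℓ, ∀ t ∈ b, t.1 ∈ G

/-- countable support -/
def SC {V Γ : Type} (h : V → Γ → ℝ) (v : V) : Prop := {γ | h v γ ≠ 0}.Countable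

variable {V Γ K : Type}

theorem inO.inC {h : V → Γ → ℝ} {ℓ : Code Γ} {v : V} (hv : inO h ℓ v) : inC h ℓ v := by
  obtain ⟨b, hb, hb'⟩ := hv
  exact ⟨b, hb, fun t ht => ⟨(hb' t ht).1.le, (hb' t ht).2.le⟩⟩

theorem not_inO_nil {h : V → Γ → ℝ} {v : V} : ¬ inO h [] v := by
  rintro ⟨b, hb, -⟩
  exact absurd hb (by simp)

theorem over_nil {G : Set Γ} : Over G [] := by
  intro b hb
  exact absurd hb (by simp)

section top

variable [TopologicalSpace V]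

theorem isOpen_box {h : V → Γ → ℝ} (hc : Continuous h) (b : List (Γ × ℚ × ℚ)) :
    IsOpen {v | ∀ t ∈ b, (t.2.1 : ℝ) < h v t.1 ∧ h v t.1 < (t.2.2 : ℝ)} := by
  have : {v | ∀ t ∈ b, (t.2.1 : ℝ) < h v t.1 ∧ h v t.1 < (t.2.2 : ℝ)} =
      ⋂ t ∈ {t | t ∈ b}, {v | (t.2.1 : ℝ) < h v t.1 ∧ h v t.1 < (t.2.2 : ℝ)} := by
    ext v; simp
  rw [this]
  refine Set.Finite.isOpen_biInter (List.finite_toSet b) fun t _ => ?_
  have h1 : Continuous fun v => h v t.1 := (continuous_apply t.1).comp hc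
  exact (isOpen_lt continuous_const h1).inter (isOpen_lt h1 continuous_const)

theorem isClosed_box {h : V → Γ → ℝ} (hc : Continuous h) (b : List (Γ × ℚ × ℚ)) :
    IsClosed {v | ∀ t ∈ b, (t.2.1 : ℝ) ≤ h v t.1 ∧ h v t.1 ≤ (t.2.2 : ℝ)} := by
  have : {v | ∀ t ∈ b, (t.2.1 : ℝ) ≤ h v t.1 ∧ h v t.1 ≤ (t.2.2 : ℝ)} =
      ⋂ t ∈ {t | t ∈ b}, {v | (t.2.1 : ℝ) ≤ h v t.1 ∧ h v t.1 ≤ (t.2.2 : ℝ)} := by
    ext v; simp
  rw [this]
  refine isClosed_biInter fun t _ => ?_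
  have h1 : Continuous fun v => h v t.1 := (continuous_apply t.1).comp hc
  exact (isClosed_le continuous_const h1).inter (isClosed_le h1 continuous_const)

theorem isOpen_inO {h : V → Γ → ℝ} (hc : Continuous h) (ℓ : Code Γ) :
    IsOpen {v | inO h ℓ v} := by
  have : {v | inO h ℓ v} =
      ⋃ b ∈ {b | b ∈ ℓ}, {v | ∀ t ∈ b, (t.2.1 : ℝ) < h v t.1 ∧ h v t.1 < (t.2.2 : ℝ)} := by
    ext v; simp [inO]
  rw [this]
  exact isOpen_biUnion fun b _ => isOpen_box hc b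

theorem isClosed_inC {h : V → Γ → ℝ} (hc : Continuous h) (ℓ : Code Γ) :
    IsClosed {v | inC h ℓ v} := by
  have : {v | inC h ℓ v} =
      ⋃ b ∈ {b | b ∈ ℓ}, {v | ∀ t ∈ b, (t.2.1 : ℝ) ≤ h v t.1 ∧ h v t.1 ≤ (t.2.2 : ℝ)} := by
    ext v; simp [inC]
  rw [this]
  exact (List.finite_toSet ℓ).isClosed_biUnion fun b _ => isClosed_box hc b

theorem sep_point {h : V → Γ → ℝ} (hc : Continuous h) {G : Set Γ} {Q : Set V} (hQ : IsCompact Q)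
    {p : V} (hpq : ∀ q ∈ Q, ∃ γ ∈ G, h p γ ≠ h q γ) :
    ∃ b : List (Γ × ℚ × ℚ), (∀ t ∈ b, t.1 ∈ G) ∧
      (∀ t ∈ b, (t.2.1 : ℝ) < h p t.1 ∧ h p t.1 < (t.2.2 : ℝ)) ∧
      ∀ q ∈ Q, ¬ ∀ t ∈ b, (t.2.1 : ℝ) ≤ h q t.1 ∧ h q t.1 ≤ (t.2.2 : ℝ) := by
  refine hQ.induction_on (p := fun Q => ∃ b : List (Γ × ℚ × ℚ), (∀ t ∈ b, t.1 ∈ G) ∧
      (∀ t ∈ b, (t.2.1 : ℝ) < h p t.1 ∧ h p t.1 < (t.2.2 : ℝ)) ∧
      ∀ q ∈ Q, ¬ ∀ t ∈ b, (t.2.1 : ℝ) ≤ h q t.1 ∧ h q t.1 ≤ (t.2.2 : ℝ)) ?_ ?_ ?_ ?_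
  · exact ⟨[], by simp, by simp, by simp⟩
  · rintro s t hst ⟨b, h1, h2, h3⟩
    exact ⟨b, h1, h2, fun q hq => h3 q (hst hq)⟩
  · rintro s t ⟨b, h1, h2, h3⟩ ⟨b', h1', h2', h3'⟩
    refine ⟨b ++ b', ?_, ?_, ?_⟩
    · intro x hx
      rcases List.mem_append.1 hx with hx | hx
      · exact h1 x hx
      · exact h1' x hx
    · intro x hx
      rcases List.mem_append.1 hx with hx | hx
      · exact h2 x hx
      · exact h2' x hx
    · intro q hq hall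
      rcases hq with hq | hq
      · exact h3 q hq fun x hx => hall x (List.mem_append.2 (Or.inl hx))
      · exact h3' q hq fun x hx => hall x (List.mem_append.2 (Or.inr hx))
  · intro q hq
    obtain ⟨γ, hγ, hne⟩ := hpq q hq
    obtain ⟨r, s, hr, hs, hrs⟩ : ∃ r s : ℚ, (r : ℝ) < h p γ ∧ h p γ < (s : ℝ) ∧
        ¬ ((r : ℝ) ≤ h q γ ∧ h q γ ≤ (s : ℝ)) := by
      rcases lt_or_gt_of_ne hne with hlt | hlt
      · obtain ⟨s, hs1, hs2⟩ := exists_rat_btwn hlt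
        obtain ⟨r, hr⟩ := exists_rat_lt (h p γ)
        exact ⟨r, s, hr, hs1, fun hh => absurd hh.2 (not_le_of_gt hs2)⟩
      · obtain ⟨r, hr1, hr2⟩ := exists_rat_btwn hlt
        obtain ⟨s, hs⟩ := exists_rat_gt (h p γ)
        exact ⟨r, s, hr2, hs, fun hh => absurd hh.1 (not_le_of_gt hr1)⟩
    have hcl := isClosed_box hc [(γ, r, s)]
    refine ⟨{v | ∀ t ∈ [(γ, r, s)], (t.2.1 : ℝ) ≤ h v t.1 ∧ h v t.1 ≤ (t.2.2 : ℝ)}ᶜ,
      mem_nhdsWithin_of_mem_nhds (hcl.isOpen_compl.mem_nhds ?_), [(γ, r, s)], ?_, ?_, ?_⟩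
    · intro hh
      exact hrs (hh (γ, r, s) (by simp))
    · intro t ht
      rw [List.mem_singleton] at ht
      rw [ht]; exact hγ
    · intro t ht
      rw [List.mem_singleton] at ht
      rw [ht]; exact ⟨hr, hs⟩
    · intro q' hq' hall
      exact hq' hall

theorem sep_sets {h : V → Γ → ℝ} (hc : Continuous h) {G : Set Γ} {P Q : Set V}
    (hP : IsCompact P) (hQ : IsCompact Q)
    (hpq : ∀ p ∈ P, ∀ q ∈ Q, ∃ γ ∈ G, h p γ ≠ h q γ) :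
    ∃ ℓ : Code Γ, Over G ℓ ∧ (∀ p ∈ P, inO h ℓ p) ∧ ∀ q ∈ Q, ¬ inC h ℓ q := by
  have key : ∀ P' : Set V, IsCompact P' → (∀ p ∈ P', p ∈ P) →
      ∃ ℓ : Code Γ, Over G ℓ ∧ (∀ p ∈ P', inO h ℓ p) ∧ ∀ q ∈ Q, ¬ inC h ℓ q := by
    intro P' hP' hsub
    refine hP'.induction_on (p := fun P' => ∃ ℓ : Code Γ, Over G ℓ ∧ (∀ p ∈ P', inO h ℓ p) ∧
      ∀ q ∈ Q, ¬ inC h ℓ q) ?_ ?_ ?_ ?_
    · exact ⟨[], over_nil, by simp, by simp [inC]⟩
    · rintro s t hst ⟨b, h1, h2, h3⟩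
      exact ⟨b, h1, fun q hq => h2 q (hst hq), h3⟩
    · rintro s t ⟨b, h1, h2, h3⟩ ⟨b', h1', h2', h3'⟩
      refine ⟨b ++ b', ?_, ?_, ?_⟩
      · intro x hx
        rcases List.mem_append.1 hx with hx | hx
        · exact h1 x hx
        · exact h1' x hx
      · intro q hq
        rcases hq with hq | hq
        · obtain ⟨x, hx, hx'⟩ := h2 q hq
          exact ⟨x, List.mem_append.2 (Or.inl hx), hx'⟩
        · obtain ⟨x, hx, hx'⟩ := h2' q hq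
          exact ⟨x, List.mem_append.2 (Or.inr hx), hx'⟩
      · rintro q hq ⟨x, hx, hx'⟩
        rcases List.mem_append.1 hx with hx | hx
        · exact h3 q hq ⟨x, hx, hx'⟩
        · exact h3' q hq ⟨x, hx, hx'⟩
    · intro p hp
      obtain ⟨b, h1, h2, h3⟩ := sep_point hc hQ (hpq p (hsub p hp))
      refine ⟨_, mem_nhdsWithin_of_mem_nhds ((isOpen_box hc b).mem_nhds h2), [b], ?_, ?_, ?_⟩
      · intro b' hb'
        rw [List.mem_singleton] at hb'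
        rw [hb']; exact h1
      · intro q hq
        exact ⟨b, by simp, hq⟩
      · rintro q hq ⟨b', hb', hall⟩
        rw [List.mem_singleton] at hb'
        rw [hb'] at hall
        exact h3 q hq hall
  exact key P hP fun p hp => hp

end top

section cl

variable [LinearOrder K]

/-- closed triples (the part of the definition invariant under reversing the order) -/
structure Cl (h : V → Γ → ℝ) (f : V → K) (G : Set Γ) (E : Set V) (N : Set K) : Prop where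
  sc : ∀ v ∈ E, SC h v
  supp : ∀ v ∈ E, ∀ γ, h v γ ≠ 0 → γ ∈ G
  img : ∀ v ∈ E, f v ∈ N
  q1 : ∀ u ∈ N, ∀ v ∈ N, ∀ ℓ, Over G ℓ →
    (∃ x, SC h x ∧ u < f x ∧ f x < v ∧ ¬ inO h ℓ x) → ∃ x ∈ E, u < f x ∧ f x < v ∧ ¬ inO h ℓ x
  qeq : ∀ z ∈ N, ∀ ℓ, Over G ℓ →
    (∃ x, SC h x ∧ f x = z ∧ inO h ℓ x) → ∃ x ∈ E, f x = z ∧ inO h ℓ x
  qlt : ∀ z ∈ N, ∀ ℓ, Over G ℓ →
    (∃ x, SC h x ∧ f x < z ∧ inO h ℓ x) → ∃ x ∈ E, f x < z ∧ inO h ℓ x
  qgt : ∀ z ∈ N, ∀ ℓ, Over G ℓ →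
    (∃ x, SC h x ∧ z < f x ∧ inO h ℓ x) → ∃ x ∈ E, z < f x ∧ inO h ℓ x
  qT : ∀ ℓ, Over G ℓ → (∃ x, SC h x ∧ inO h ℓ x) → ∃ x ∈ E, inO h ℓ x
  covU : ∀ u ∈ N, ∀ w, u ⋖ w → w ∈ N
  covL : ∀ u ∈ N, ∀ w, w ⋖ u → w ∈ N

/-- the order dual of a closed triple -/
theorem Cl.dual {h : V → Γ → ℝ} {f : V → K} {G : Set Γ} {E : Set V} {N : Set K}
    (hcl : Cl h f G E N) :
    Cl (K := Kᵒᵈ) h (fun v => OrderDual.toDual (f v)) G E (OrderDual.ofDual ⁻¹' N) where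
  sc := hcl.sc
  supp := hcl.supp
  img := hcl.img
  q1 := by
    rintro u hu v hv ℓ hℓ ⟨x, hx, h1, h2, h3⟩
    obtain ⟨y, hy, h1', h2', h3'⟩ := hcl.q1 (OrderDual.ofDual v) hv (OrderDual.ofDual u) hu ℓ hℓ
      ⟨x, hx, h2, h1, h3⟩
    exact ⟨y, hy, h2', h1', h3'⟩
  qeq := by
    rintro u hu ℓ hℓ ⟨x, hx, h1, h3⟩
    obtain ⟨y, hy, h1', h3'⟩ := hcl.qeq (OrderDual.ofDual u) hu ℓ hℓ ⟨x, hx, h1, h3⟩
    exact ⟨y, hy, h1', h3'⟩
  qlt := by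
    rintro u hu ℓ hℓ ⟨x, hx, h1, h3⟩
    obtain ⟨y, hy, h1', h3'⟩ := hcl.qgt (OrderDual.ofDual u) hu ℓ hℓ ⟨x, hx, h1, h3⟩
    exact ⟨y, hy, h1', h3'⟩
  qgt := by
    rintro u hu ℓ hℓ ⟨x, hx, h1, h3⟩
    obtain ⟨y, hy, h1', h3'⟩ := hcl.qlt (OrderDual.ofDual u) hu ℓ hℓ ⟨x, hx, h1, h3⟩
    exact ⟨y, hy, h1', h3'⟩
  qT := hcl.qT
  covU := by
    intro u hu w huw
    exact hcl.covL (OrderDual.ofDual u) hu (OrderDual.ofDual w) huw.ofDual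
  covL := by
    intro u hu w huw
    exact hcl.covU (OrderDual.ofDual u) hu (OrderDual.ofDual w) huw.ofDual

end cl

section restr

variable [TopologicalSpace V] [CompactSpace V]

theorem closure_supp {h : V → Γ → ℝ} (hc : Continuous h) {G : Set Γ} {E : Set V}
    (hsupp : ∀ v ∈ E, ∀ γ, h v γ ≠ 0 → γ ∈ G) {y : V} (hy : y ∈ closure E) {γ : Γ}
    (hγ : γ ∉ G) : h y γ = 0 := by
  have hcl : IsClosed {v | h v γ = 0} :=
    isClosed_eq ((continuous_apply γ).comp hc) continuous_const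
  have hsub : E ⊆ {v | h v γ = 0} := by
    intro v hv
    by_contra hne
    exact hγ (hsupp v hv γ hne)
  exact closure_minimal hsub hcl hy

theorem exists_agree {h : V → Γ → ℝ} (hc : Continuous h) {G : Set Γ} {E' : Set V} {x : V}
    (hE : ∀ ℓ, Over G ℓ → inO h ℓ x → ∃ e ∈ E', inO h ℓ e) :
    ∃ y ∈ closure E', ∀ γ ∈ G, h y γ = h x γ := by
  by_contra hcon
  push Not at hcon
  have hpq : ∀ p ∈ ({x} : Set V), ∀ q ∈ closure E', ∃ γ ∈ G, h p γ ≠ h q γ := by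
    intro p hp q hq
    obtain ⟨γ, hγ, hne⟩ := hcon q hq
    rw [Set.mem_singleton_iff.1 hp]
    exact ⟨γ, hγ, hne.symm⟩
  obtain ⟨ℓ, h1, h2, h3⟩ := sep_sets hc isCompact_singleton isClosed_closure.isCompact hpq
  obtain ⟨e, he, he'⟩ := hE ℓ h1 (h2 x rfl)
  exact h3 e (subset_closure he) he'.inC

variable [LinearOrder K] [TopologicalSpace K] [OrderTopology K]

/-- restriction of a point to a closed triple -/
theorem exists_restr {h : V → Γ → ℝ} (hc : Continuous h) (hi : Function.Injective h)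
    {f : V → K} (hf : Continuous f) {G : Set Γ} {E : Set V} {N : Set K} (hcl : Cl h f G E N)
    {x : V} (hx : SC h x) :
    ∃ y ∈ closure E, (∀ γ ∈ G, h y γ = h x γ) ∧ (∀ γ, γ ∉ G → h y γ = 0) ∧
      (∀ n ∈ N, f x < n → f y ≤ n) ∧ (∀ n ∈ N, n < f x → n ≤ f y) ∧
      (∀ n ∈ N, f x = n → f y = n) := by
  obtain ⟨y, hy, hy'⟩ := exists_agree (E' := E) (G := G) (x := x) hc
    (fun ℓ hℓ hx' => hcl.qT ℓ hℓ ⟨x, hx, hx'⟩)
  have huniq : ∀ z ∈ closure E, (∀ γ ∈ G, h z γ = h x γ) → z = y := by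
    intro z hz hz'
    apply hi
    funext γ
    by_cases hγ : γ ∈ G
    · rw [hz' γ hγ, hy' γ hγ]
    · rw [closure_supp hc hcl.supp hz hγ, closure_supp hc hcl.supp hy hγ]
  refine ⟨y, hy, hy', fun γ hγ => closure_supp hc hcl.supp hy hγ, ?_, ?_, ?_⟩
  · intro n hn hlt
    obtain ⟨z, hz, hz'⟩ := exists_agree (E' := {e ∈ E | f e < n}) (G := G) (x := x) hc
      (fun ℓ hℓ hx' => by
        obtain ⟨e, he, h1, h2⟩ := hcl.qlt n hn ℓ hℓ ⟨x, hx, hlt, hx'⟩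
        exact ⟨e, ⟨he, h1⟩, h2⟩)
    have h1 : z = y := huniq z (closure_mono (fun e he => he.1) hz) hz'
    rw [← h1]
    have hsub : {e ∈ E | f e < n} ⊆ {e | f e ≤ n} := fun e he => le_of_lt he.2
    exact closure_minimal hsub (isClosed_le hf continuous_const) hz
  · intro n hn hlt
    obtain ⟨z, hz, hz'⟩ := exists_agree (E' := {e ∈ E | n < f e}) (G := G) (x := x) hc
      (fun ℓ hℓ hx' => by
        obtain ⟨e, he, h1, h2⟩ := hcl.qgt n hn ℓ hℓ ⟨x, hx, hlt, hx'⟩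
        exact ⟨e, ⟨he, h1⟩, h2⟩)
    have h1 : z = y := huniq z (closure_mono (fun e he => he.1) hz) hz'
    rw [← h1]
    have hsub : {e ∈ E | n < f e} ⊆ {e | n ≤ f e} := fun e he => le_of_lt he.2
    exact closure_minimal hsub (isClosed_le continuous_const hf) hz
  · intro n hn hlt
    obtain ⟨z, hz, hz'⟩ := exists_agree (E' := {e ∈ E | f e = n}) (G := G) (x := x) hc
      (fun ℓ hℓ hx' => by
        obtain ⟨e, he, h1, h2⟩ := hcl.qeq n hn ℓ hℓ ⟨x, hx, hlt, hx'⟩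
        exact ⟨e, ⟨he, h1⟩, h2⟩)
    have h1 : z = y := huniq z (closure_mono (fun e he => he.1) hz) hz'
    rw [← h1]
    have hsub : {e ∈ E | f e = n} ⊆ {e | f e = n} := fun e he => he.2
    exact closure_minimal hsub (isClosed_eq hf continuous_const) hz

end restr

end Pool.Agent.Lib_MP_e33218_gt
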